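import Pool.Agent.Helper43_Strip.Lap

/-!
# Modules ASYM, K3B: asymptotics of the diffusion constant and of the third moment bound
-/

namespace Pool.Agent.Helper38_Strip
namespace H43

open MeasureTheory Filter Topology Set

theorem bb_ii (X : ℝ) {f : ℝ → ℝ} (hf : Continuous f) (a b : ℝ) :
    IntervalIntegrable (fun θ => f θ * Real.exp (X * Real.cos θ)) volume a b :=
  Continuous.intervalIntegrable (by fun_prop) _ _

theorem bb_add (X : ℝ) {f g : ℝ → ℝ} (hf : Continuous f) (hg : Continuous g) :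
    bb X (fun θ => f θ + g θ) = bb X f + bb X g := by
  unfold bb
  have h : ∫ θ in (-Real.pi)..Real.pi, (f θ + g θ) * Real.exp (X * Real.cos θ) =
      (∫ θ in (-Real.pi)..Real.pi, f θ * Real.exp (X * Real.cos θ)) +
        ∫ θ in (-Real.pi)..Real.pi, g θ * Real.exp (X * Real.cos θ) := by
    rw [← intervalIntegral.integral_add (bb_ii X hf _ _) (bb_ii X hg _ _)]
    simp only [add_mul]
  rw [h]
  ring

theorem bb_sub (X : ℝ) {f g : ℝ → ℝ} (hf : Continuous f) (hg : Continuous g) :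
    bb X (fun θ => f θ - g θ) = bb X f - bb X g := by
  unfold bb
  have h : ∫ θ in (-Real.pi)..Real.pi, (f θ - g θ) * Real.exp (X * Real.cos θ) =
      (∫ θ in (-Real.pi)..Real.pi, f θ * Real.exp (X * Real.cos θ)) -
        ∫ θ in (-Real.pi)..Real.pi, g θ * Real.exp (X * Real.cos θ) := by
    rw [← intervalIntegral.integral_sub (bb_ii X hf _ _) (bb_ii X hg _ _)]
    simp only [sub_mul]
  rw [h]
  ring

theorem bb_mul (X c : ℝ) (f : ℝ → ℝ) :
    bb X (fun θ => c * f θ) = c * bb X f := by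
  unfold bb
  have h : ∫ θ in (-Real.pi)..Real.pi, c * f θ * Real.exp (X * Real.cos θ) =
      c * ∫ θ in (-Real.pi)..Real.pi, f θ * Real.exp (X * Real.cos θ) := by
    rw [← intervalIntegral.integral_const_mul]
    refine intervalIntegral.integral_congr fun θ _ => ?_
    show c * f θ * Real.exp (X * Real.cos θ) = c * (f θ * Real.exp (X * Real.cos θ))
    ring
  rw [h]
  ring

theorem bb_congr (X : ℝ) {f g : ℝ → ℝ} (h : ∀ θ, f θ = g θ) : bb X f = bb X g := by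
  have : f = g := funext h
  rw [this]

/-- the constants of LAP -/
noncomputable def cc (j : ℕ) : ℝ :=
  2 ^ ((j : ℝ) - 1 / 2) * Real.Gamma ((j : ℝ) + 1 / 2) / Real.pi

theorem cc_succ (j : ℕ) : cc (j + 1) = (2 * j + 1) * cc j := by
  unfold cc
  have h1 : (((j + 1 : ℕ) : ℝ) - 1 / 2) = 1 + ((j : ℝ) - 1 / 2) := by
    push_cast
    ring
  have h2 : (((j + 1 : ℕ) : ℝ) + 1 / 2) = ((j : ℝ) + 1 / 2) + 1 := by
    push_cast
    ring
  rw [h1, h2, Real.rpow_add (by norm_num), Real.rpow_one, Real.Gamma_add_one (by positivity)]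
  ring

theorem cc_zero : cc 0 = 1 / √(2 * Real.pi) := by
  unfold cc
  have h1 : ((0 : ℕ) : ℝ) + 1 / 2 = 1 / 2 := by norm_num
  have h2 : ((0 : ℕ) : ℝ) - 1 / 2 = -(1 / 2) := by norm_num
  rw [h1, h2, Real.Gamma_one_half_eq, Real.rpow_neg (by norm_num), ← Real.sqrt_eq_rpow,
    Real.sqrt_mul (by norm_num)]
  have h3 : √Real.pi ≠ 0 := (Real.sqrt_pos.mpr Real.pi_pos).ne'
  have h4 : √(2 : ℝ) ≠ 0 := by positivity
  have h5 : √Real.pi * √Real.pi = Real.pi := Real.mul_self_sqrt Real.pi_pos.le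
  field_simp
  nlinarith

theorem cc_one : cc 1 = 1 / √(2 * Real.pi) := by
  have := cc_succ 0
  simp only [zero_add] at this
  rw [this, cc_zero]
  norm_num

theorem cc_two : cc 2 = 3 * (1 / √(2 * Real.pi)) := by
  have := cc_succ 1
  norm_num at this
  rw [this, cc_one]

theorem cc_three : cc 3 = 15 * (1 / √(2 * Real.pi)) := by
  have := cc_succ 2
  norm_num at this
  rw [this, cc_two]
  ring

/-- LAP at `k X` -/
theorem lap_scale (hL : LapStatement) (j : ℕ) (f : ℝ → ℝ) (a : ℝ) (hf : Continuous f)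
    (hlim : Tendsto (fun θ => f θ / θ ^ (2 * j)) (𝓝[≠] 0) (𝓝 a)) (k : ℝ) (hk : 0 < k) :
    Tendsto (fun X : ℝ => (k * X) ^ ((j : ℝ) + 1 / 2) * Real.exp (-(k * X)) * bb (k * X) f) atTop
      (𝓝 (a * cc j)) := by
  have h1 := hL j f a hf hlim
  have h2 : Tendsto (fun X : ℝ => k * X) atTop atTop := tendsto_id.const_mul_atTop hk
  exact h1.comp h2

theorem sin_lim : Tendsto (fun θ : ℝ => Real.sin θ / θ) (𝓝[≠] 0) (𝓝 1) := by
  have h := (hasDerivAt_iff_tendsto_slope.mp (Real.hasDerivAt_sin 0))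
  rw [Real.cos_zero] at h
  refine h.congr fun θ => ?_
  rw [slope_def_field, Real.sin_zero, sub_zero, sub_zero]

theorem sin_pow_lim (j : ℕ) (g : ℝ → ℝ) (hg : Continuous g) :
    Tendsto (fun θ : ℝ => Real.sin θ ^ (2 * j) * g θ / θ ^ (2 * j)) (𝓝[≠] 0) (𝓝 (g 0)) := by
  have h1 := (sin_lim.pow (2 * j)).mul ((hg.tendsto 0).mono_left (nhdsWithin_le_nhds (s := {0}ᶜ)))
  rw [one_pow, one_mul] at h1
  refine h1.congr fun θ => ?_
  rw [div_pow]
  ring

theorem sin_pow_cos_lim (j : ℕ) :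
    Tendsto (fun θ : ℝ => Real.sin θ ^ (2 * j) * (1 - Real.cos θ) / θ ^ (2 * (j + 1))) (𝓝[≠] 0)
      (𝓝 (1 / 2)) := by
  have h1 := (sin_lim.pow (2 * j)).mul cos_lim.neg
  rw [one_pow, one_mul, neg_neg] at h1
  refine h1.congr fun θ => ?_
  rw [div_pow]
  ring

/-- scaled quantities -/
theorem q1_eq (X : ℝ) : q1 X = 2 * bb X (fun θ => Real.sin θ ^ 2) := by
  unfold q1
  rw [bb_mul]

theorem q1_lim (hL : LapStatement) :
    Tendsto (fun X : ℝ => X ^ ((1 : ℝ) + 1 / 2) * Real.exp (-X) * q1 X) atTop (𝓝 (2 * cc 1)) := by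
  have h1 := lap_scale hL 1 (fun θ => Real.sin θ ^ 2) 1 (by fun_prop) (by
    have := sin_pow_lim 1 (fun _ => 1) continuous_const
    simpa using this) 1 one_pos
  simp only [one_mul, Nat.cast_one] at h1
  have h2 := h1.const_mul 2
  refine h2.congr fun X => ?_
  rw [q1_eq]
  ring

theorem numer_eq (X : ℝ) :
    2 * q1 X * bb (2 * X) (fun θ => Real.sin θ ^ 4 * Real.cos θ) -
      q2 X * bb (2 * X) (fun θ => Real.sin θ ^ 4) =
    4 * bb X (fun θ => Real.sin θ ^ 2 * (1 - Real.cos θ)) * bb (2 * X) (fun θ => Real.sin θ ^ 4) -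
      2 * q1 X * bb (2 * X) (fun θ => Real.sin θ ^ 4 * (1 - Real.cos θ)) := by
  have hc1 : Continuous fun θ : ℝ => 4 * Real.sin θ ^ 2 := by fun_prop
  have hc2 : Continuous fun θ : ℝ => 4 * (Real.sin θ ^ 2 * (1 - Real.cos θ)) := by fun_prop
  have hc3 : Continuous fun θ : ℝ => Real.sin θ ^ 4 := by fun_prop
  have hc4 : Continuous fun θ : ℝ => Real.sin θ ^ 4 * Real.cos θ := by fun_prop
  have h1 : q2 X = 2 * q1 X - 4 * bb X (fun θ => Real.sin θ ^ 2 * (1 - Real.cos θ)) := by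
    have e1 : q2 X = bb X (fun θ => 4 * Real.sin θ ^ 2 -
        4 * (Real.sin θ ^ 2 * (1 - Real.cos θ))) := by
      unfold q2
      exact bb_congr X fun θ => by ring
    have e2 := bb_sub X hc1 hc2
    have e3 := bb_mul X 4 (fun θ => Real.sin θ ^ 2)
    have e4 := bb_mul X 4 (fun θ => Real.sin θ ^ 2 * (1 - Real.cos θ))
    rw [e1, e2, e3, e4, q1_eq]
    ring
  have h2 : bb (2 * X) (fun θ => Real.sin θ ^ 4 * (1 - Real.cos θ)) =
      bb (2 * X) (fun θ => Real.sin θ ^ 4) -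
        bb (2 * X) (fun θ => Real.sin θ ^ 4 * Real.cos θ) := by
    rw [← bb_sub (2 * X) hc3 hc4]
    exact bb_congr (2 * X) fun θ => by ring
  rw [h1, h2]
  ring

theorem combine {fu fv fp fr : ℝ → ℝ} {u v p r : ℝ} (A B : ℝ) (hu : Tendsto fu atTop (𝓝 u))
    (hv : Tendsto fv atTop (𝓝 v)) (hp : Tendsto fp atTop (𝓝 p)) (hr : Tendsto fr atTop (𝓝 r))
    (h0 : u ≠ 0) :
    Tendsto (fun X => 8 * ((A * (fp X * fr X) - B * (fu X * fv X)) / fu X ^ 3)) atTop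
      (𝓝 (8 * ((A * (p * r) - B * (u * v)) / u ^ 3))) := by
  exact ((((hp.mul hr).const_mul A).sub ((hu.mul hv).const_mul B)).div (hu.pow 3)
    (pow_ne_zero 3 h0)).const_mul 8

theorem final_val :
    8 * ((4 * 2 ^ (-(5 / 2) : ℝ) * (1 / 2 * cc 2 * cc 2) -
      2 * 2 ^ (-(7 / 2) : ℝ) * (2 * cc 1 * (1 / 2 * cc 3))) / (2 * cc 1) ^ 3) =
      3 * √Real.pi / 4 := by
  rw [cc_one, cc_two, cc_three]
  have h1 : (2 : ℝ) ^ (-(5 / 2) : ℝ) = 1 / (4 * √2) := by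
    rw [show (-(5 / 2) : ℝ) = -(2 + 1 / 2) by norm_num, Real.rpow_neg (by norm_num),
      Real.rpow_add (by norm_num), ← Real.sqrt_eq_rpow, Real.rpow_two]
    norm_num
  have h2 : (2 : ℝ) ^ (-(7 / 2) : ℝ) = 1 / (8 * √2) := by
    rw [show (-(7 / 2) : ℝ) = -(3 + 1 / 2) by norm_num, Real.rpow_neg (by norm_num),
      Real.rpow_add (by norm_num), ← Real.sqrt_eq_rpow, show (3 : ℝ) = ((3 : ℕ) : ℝ) by norm_num,
      Real.rpow_natCast]
    norm_num
  rw [h1, h2, Real.sqrt_mul (by norm_num)]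
  have h3 : √Real.pi ≠ 0 := (Real.sqrt_pos.mpr Real.pi_pos).ne'
  have h4 : √(2 : ℝ) ≠ 0 := by positivity
  have h5 : √(2 : ℝ) ^ 2 = 2 := Real.sq_sqrt (by norm_num)
  field_simp
  ring_nf

theorem final_eq (X : ℝ) (hX0 : 0 < X) (P R U V E : ℝ) (hE : E ≠ 0) :
    8 * ((4 * 2 ^ (-(5 / 2) : ℝ) *
      ((X ^ (((2 : ℕ) : ℝ) + 1 / 2) * E * P) *
        ((2 * X) ^ (((2 : ℕ) : ℝ) + 1 / 2) * E ^ 2 * R)) -
      2 * 2 ^ (-(7 / 2) : ℝ) * (X ^ ((1 : ℝ) + 1 / 2) * E * U *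
        ((2 * X) ^ (((3 : ℕ) : ℝ) + 1 / 2) * E ^ 2 * V))) /
      (X ^ ((1 : ℝ) + 1 / 2) * E * U) ^ 3) =
      √X * (8 * (4 * P * R - 2 * U * V) / U ^ 3) := by
  have hs : 0 < √X := Real.sqrt_pos.mpr hX0
  have hss : √X ^ 2 = X := Real.sq_sqrt hX0.le
  have e1 : X ^ ((1 : ℝ) + 1 / 2) = √X ^ 3 := by
    rw [Real.rpow_add hX0, Real.rpow_one, ← Real.sqrt_eq_rpow]
    nth_rewrite 1 [← hss]
    ring
  have e2 : X ^ (((2 : ℕ) : ℝ) + 1 / 2) = √X ^ 5 := by
    rw [Real.rpow_add hX0, Real.rpow_natCast, ← Real.sqrt_eq_rpow]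
    nth_rewrite 1 [← hss]
    ring
  have e3 : (2 * X) ^ (((2 : ℕ) : ℝ) + 1 / 2) = 4 * √2 * √X ^ 5 := by
    rw [Real.mul_rpow (by norm_num) hX0.le, e2, Real.rpow_add (by norm_num), Real.rpow_natCast,
      ← Real.sqrt_eq_rpow]
    norm_num
  have e4 : (2 * X) ^ (((3 : ℕ) : ℝ) + 1 / 2) = 8 * √2 * √X ^ 7 := by
    rw [Real.rpow_add (by positivity), Real.rpow_natCast, ← Real.sqrt_eq_rpow,
      Real.sqrt_mul (by norm_num)]
    have : (2 * X) ^ 3 = 8 * √X ^ 6 := by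
      have h6 : √X ^ 6 = X ^ 3 := by
        rw [show 6 = 2 * 3 from rfl, pow_mul, hss]
      rw [h6]
      ring
    rw [this]
    ring
  have h1 : (2 : ℝ) ^ (-(5 / 2) : ℝ) = 1 / (4 * √2) := by
    rw [show (-(5 / 2) : ℝ) = -(2 + 1 / 2) by norm_num, Real.rpow_neg (by norm_num),
      Real.rpow_add (by norm_num), ← Real.sqrt_eq_rpow, Real.rpow_two]
    norm_num
  have h2 : (2 : ℝ) ^ (-(7 / 2) : ℝ) = 1 / (8 * √2) := by
    rw [show (-(7 / 2) : ℝ) = -(3 + 1 / 2) by norm_num, Real.rpow_neg (by norm_num),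
      Real.rpow_add (by norm_num), ← Real.sqrt_eq_rpow, show (3 : ℝ) = ((3 : ℕ) : ℝ) by norm_num,
      Real.rpow_natCast]
    norm_num
  rw [e1, e2, e3, e4, h1, h2]
  have h4 : √(2 : ℝ) ≠ 0 := by positivity
  by_cases hU0 : U = 0
  · rw [hU0]
    simp
  · field_simp

end H43

open MeasureTheory Filter Topology Set

theorem asym (hL : LapStatement) : AsymStatement := by
  have hu := H43.q1_lim hL
  have t1 : Tendsto (fun θ : ℝ => Real.sin θ ^ 4 * (1 - Real.cos θ) / θ ^ (2 * 3)) (𝓝[≠] 0)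
      (𝓝 (1 / 2)) := by
    have h := H43.sin_pow_cos_lim 2
    rw [show 2 * 2 = 4 from rfl, show 2 * (2 + 1) = 2 * 3 from rfl] at h
    exact h
  have t2 : Tendsto (fun θ : ℝ => Real.sin θ ^ 2 * (1 - Real.cos θ) / θ ^ (2 * 2)) (𝓝[≠] 0)
      (𝓝 (1 / 2)) := by
    have h := H43.sin_pow_cos_lim 1
    rw [show 2 * 1 = 2 from rfl, show 2 * (1 + 1) = 2 * 2 from rfl] at h
    exact h
  have hv := H43.lap_scale hL 3 (fun θ => Real.sin θ ^ 4 * (1 - Real.cos θ)) (1 / 2) (by fun_prop)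
    t1 2 two_pos
  have hp := H43.lap_scale hL 2 (fun θ => Real.sin θ ^ 2 * (1 - Real.cos θ)) (1 / 2) (by fun_prop)
    t2 1 one_pos
  have hr := H43.lap_scale hL 2 (fun θ => Real.sin θ ^ 4) 1 (by fun_prop) (by
    have := H43.sin_pow_lim 2 (fun _ => 1) continuous_const
    simpa using this) 2 two_pos
  simp only [one_mul] at hp hr
  have hcc1 : (2 : ℝ) * H43.cc 1 ≠ 0 := by
    rw [H43.cc_one]
    have := Real.pi_pos
    positivity
  have hall := H43.combine (4 * 2 ^ (-(5 / 2) : ℝ)) (2 * 2 ^ (-(7 / 2) : ℝ)) hu hv hp hr hcc1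
  rw [H43.final_val] at hall
  refine hall.congr' ?_
  filter_upwards [eventually_gt_atTop (0 : ℝ)] with X hX0
  have e5 : Real.exp (-(2 * X)) = Real.exp (-X) ^ 2 := by
    rw [← Real.exp_nat_mul]
    congr 1
    push_cast
    ring
  rw [e5, dd, H43.numer_eq]
  exact H43.final_eq X hX0 _ _ _ _ _ (Real.exp_pos _).ne'

end Pool.Agent.Helper38_Strip
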