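import Pool.Agent.Helper43_Strip.Asym

/-!
# Module K3B: growth of the third moment bound
-/

namespace Pool.Agent.Helper38_Strip
namespace H43

open MeasureTheory Filter Topology Set

theorem k3_expand (X : ℝ) :
    bb (2 * X) (fun θ => 8 * Real.sin θ ^ 2 * (Real.cos θ - X * Real.sin θ ^ 2) ^ 2 -
      4 * Real.sin θ ^ 2 * Real.cos (2 * θ)) =
    8 * bb (2 * X) (fun θ => Real.sin θ ^ 2 * Real.cos θ ^ 2) -
      16 * X * bb (2 * X) (fun θ => Real.sin θ ^ 4 * Real.cos θ) +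
      8 * X ^ 2 * bb (2 * X) (fun θ => Real.sin θ ^ 6) -
      4 * bb (2 * X) (fun θ => Real.sin θ ^ 2 * Real.cos (2 * θ)) := by
  have c1 : Continuous fun θ : ℝ => 8 * (Real.sin θ ^ 2 * Real.cos θ ^ 2) := by fun_prop
  have c2 : Continuous fun θ : ℝ => 16 * X * (Real.sin θ ^ 4 * Real.cos θ) := by fun_prop
  have c3 : Continuous fun θ : ℝ => 8 * X ^ 2 * Real.sin θ ^ 6 := by fun_prop
  have c4 : Continuous fun θ : ℝ => 4 * (Real.sin θ ^ 2 * Real.cos (2 * θ)) := by fun_prop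
  have h0 : bb (2 * X) (fun θ => 8 * Real.sin θ ^ 2 * (Real.cos θ - X * Real.sin θ ^ 2) ^ 2 -
      4 * Real.sin θ ^ 2 * Real.cos (2 * θ)) =
      bb (2 * X) (fun θ => (8 * (Real.sin θ ^ 2 * Real.cos θ ^ 2) -
        16 * X * (Real.sin θ ^ 4 * Real.cos θ) + 8 * X ^ 2 * Real.sin θ ^ 6) -
        4 * (Real.sin θ ^ 2 * Real.cos (2 * θ))) :=
    bb_congr _ fun θ => by ring
  have c12 : Continuous fun θ : ℝ => 8 * (Real.sin θ ^ 2 * Real.cos θ ^ 2) -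
      16 * X * (Real.sin θ ^ 4 * Real.cos θ) := by fun_prop
  have c123 : Continuous fun θ : ℝ => 8 * (Real.sin θ ^ 2 * Real.cos θ ^ 2) -
      16 * X * (Real.sin θ ^ 4 * Real.cos θ) + 8 * X ^ 2 * Real.sin θ ^ 6 := by fun_prop
  have h1 := bb_sub (2 * X) c123 c4
  have h2 := bb_add (2 * X) c12 c3
  have h3 := bb_sub (2 * X) c1 c2
  have m1 := bb_mul (2 * X) 8 (fun θ => Real.sin θ ^ 2 * Real.cos θ ^ 2)
  have m2 := bb_mul (2 * X) (16 * X) (fun θ => Real.sin θ ^ 4 * Real.cos θ)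
  have m3 := bb_mul (2 * X) (8 * X ^ 2) (fun θ => Real.sin θ ^ 6)
  have m4 := bb_mul (2 * X) 4 (fun θ => Real.sin θ ^ 2 * Real.cos (2 * θ))
  rw [h0, h1, h2, h3, m1, m2, m3, m4]

theorem two_rpow_aux (j : ℕ) (X : ℝ) (hX0 : 0 < X) :
    (2 * X) ^ ((j : ℝ) + 1 / 2) = 2 ^ j * √2 * (X ^ j * √X) := by
  rw [Real.mul_rpow (by norm_num) hX0.le, Real.rpow_add (by norm_num), Real.rpow_add hX0,
    Real.rpow_natCast, Real.rpow_natCast, ← Real.sqrt_eq_rpow, ← Real.sqrt_eq_rpow]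

theorem k3_final (X : ℝ) (hX0 : 0 < X) (B1 B2 B3 B4 U E : ℝ) (hE : E ≠ 0) :
    ((3 / 2) * (8 * B1 - 16 * X * B2 + 8 * X ^ 2 * B3 - 4 * B4) / U ^ 2) ^ 2 =
      X ^ 3 * ((3 / 2) * ((8 / (2 * √2)) * ((2 * X) ^ (((1 : ℕ) : ℝ) + 1 / 2) * E ^ 2 * B1) -
        (16 / (4 * √2)) * ((2 * X) ^ (((2 : ℕ) : ℝ) + 1 / 2) * E ^ 2 * B2) +
        (8 / (8 * √2)) * ((2 * X) ^ (((3 : ℕ) : ℝ) + 1 / 2) * E ^ 2 * B3) -
        (4 / (2 * √2)) * ((2 * X) ^ (((1 : ℕ) : ℝ) + 1 / 2) * E ^ 2 * B4)) /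
        (X ^ ((1 : ℝ) + 1 / 2) * E * U) ^ 2) ^ 2 := by
  have hs : 0 < √X := Real.sqrt_pos.mpr hX0
  have hss : √X ^ 2 = X := Real.sq_sqrt hX0.le
  have e1 : X ^ ((1 : ℝ) + 1 / 2) = X * √X := by
    rw [Real.rpow_add hX0, Real.rpow_one, ← Real.sqrt_eq_rpow]
  rw [e1, two_rpow_aux 1 X hX0, two_rpow_aux 2 X hX0, two_rpow_aux 3 X hX0]
  have h4 : √(2 : ℝ) ≠ 0 := by positivity
  by_cases hU0 : U = 0
  · rw [hU0]
    simp
  · have key : (3 / 2) * ((8 / (2 * √2)) * (2 ^ 1 * √2 * (X ^ 1 * √X) * E ^ 2 * B1) -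
        (16 / (4 * √2)) * (2 ^ 2 * √2 * (X ^ 2 * √X) * E ^ 2 * B2) +
        (8 / (8 * √2)) * (2 ^ 3 * √2 * (X ^ 3 * √X) * E ^ 2 * B3) -
        (4 / (2 * √2)) * (2 ^ 1 * √2 * (X ^ 1 * √X) * E ^ 2 * B4)) /
        (X * √X * E * U) ^ 2 =
        ((3 / 2) * (8 * B1 - 16 * X * B2 + 8 * X ^ 2 * B3 - 4 * B4) / U ^ 2) / (X * √X) := by
      field_simp
      ring
    rw [key]
    generalize (3 / 2) * (8 * B1 - 16 * X * B2 + 8 * X ^ 2 * B3 - 4 * B4) / U ^ 2 = W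
    rw [div_pow, mul_pow X (√X) 2, hss]
    field_simp

end H43

open MeasureTheory Filter Topology Set

theorem k3b (hL : LapStatement) : K3BStatement := by
  have hu := H43.q1_lim hL
  have t1 : Tendsto (fun θ : ℝ => Real.sin θ ^ 2 * Real.cos θ ^ 2 / θ ^ (2 * 1)) (𝓝[≠] 0)
      (𝓝 1) := by
    have h := H43.sin_pow_lim 1 (fun θ => Real.cos θ ^ 2) (by fun_prop)
    rw [show 2 * 1 = 2 from rfl] at h
    simpa using h
  have t2 : Tendsto (fun θ : ℝ => Real.sin θ ^ 4 * Real.cos θ / θ ^ (2 * 2)) (𝓝[≠] 0)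
      (𝓝 1) := by
    have h := H43.sin_pow_lim 2 (fun θ => Real.cos θ) (by fun_prop)
    rw [show 2 * 2 = 4 from rfl] at h
    simpa using h
  have t3 : Tendsto (fun θ : ℝ => Real.sin θ ^ 6 / θ ^ (2 * 3)) (𝓝[≠] 0)
      (𝓝 1) := by
    have h := H43.sin_pow_lim 3 (fun _ => 1) (by fun_prop)
    rw [show 2 * 3 = 6 from rfl] at h
    simpa using h
  have t4 : Tendsto (fun θ : ℝ => Real.sin θ ^ 2 * Real.cos (2 * θ) / θ ^ (2 * 1)) (𝓝[≠] 0)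
      (𝓝 1) := by
    have h := H43.sin_pow_lim 1 (fun θ => Real.cos (2 * θ)) (by fun_prop)
    rw [show 2 * 1 = 2 from rfl] at h
    simpa using h
  have h1 := H43.lap_scale hL 1 (fun θ => Real.sin θ ^ 2 * Real.cos θ ^ 2) 1 (by fun_prop)
    t1 2 two_pos
  have h2 := H43.lap_scale hL 2 (fun θ => Real.sin θ ^ 4 * Real.cos θ) 1 (by fun_prop)
    t2 2 two_pos
  have h3 := H43.lap_scale hL 3 (fun θ => Real.sin θ ^ 6) 1 (by fun_prop) t3 2 two_pos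
  have h4 := H43.lap_scale hL 1 (fun θ => Real.sin θ ^ 2 * Real.cos (2 * θ)) 1 (by fun_prop)
    t4 2 two_pos
  have hcc1 : (2 : ℝ) * H43.cc 1 ≠ 0 := by
    rw [H43.cc_one]
    have := Real.pi_pos
    positivity
  have hall := ((((((h1.const_mul (8 / (2 * √2))).sub (h2.const_mul (16 / (4 * √2)))).add
    (h3.const_mul (8 / (8 * √2)))).sub (h4.const_mul (4 / (2 * √2)))).const_mul (3 / 2)).div
    (hu.pow 2) (pow_ne_zero 2 hcc1)).pow 2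
  set κ := (3 / 2 * (8 / (2 * √2) * (1 * H43.cc 1) - 16 / (4 * √2) * (1 * H43.cc 2) +
    8 / (8 * √2) * (1 * H43.cc 3) - 4 / (2 * √2) * (1 * H43.cc 1)) / (2 * H43.cc 1) ^ 2) ^ 2
    with hκ
  have hκ0 : 0 ≤ κ := sq_nonneg _
  have hev := hall.eventually (eventually_le_nhds (by linarith : κ < κ + 1))
  rw [eventually_atTop] at hev
  obtain ⟨X₁, hX₁⟩ := hev
  refine ⟨κ + 1, max X₁ 1, by linarith, lt_of_lt_of_le one_pos (le_max_right _ _), ?_⟩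
  intro X hX
  have hX1 : 1 ≤ X := (le_max_right _ _).trans hX
  have hX0 : 0 < X := by linarith
  have h := hX₁ X ((le_max_left _ _).trans hX)
  have e5 : Real.exp (-(2 * X)) = Real.exp (-X) ^ 2 := by
    rw [← Real.exp_nat_mul]
    congr 1
    push_cast
    ring
  have e6 := H43.k3_final X hX0 (bb (2 * X) (fun θ => Real.sin θ ^ 2 * Real.cos θ ^ 2))
    (bb (2 * X) (fun θ => Real.sin θ ^ 4 * Real.cos θ)) (bb (2 * X) (fun θ => Real.sin θ ^ 6))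
    (bb (2 * X) (fun θ => Real.sin θ ^ 2 * Real.cos (2 * θ))) (q1 X) (Real.exp (-X))
    (Real.exp_pos _).ne'
  rw [K3, H43.k3_expand, e6, ← e5]
  calc _ ≤ X ^ 3 * (κ + 1) := mul_le_mul_of_nonneg_left h (by positivity)
    _ ≤ X ^ 3 * (κ + 1) ^ 3 := by
        refine mul_le_mul_of_nonneg_left ?_ (by positivity)
        have : (1 : ℝ) ≤ (κ + 1) ^ 2 := by nlinarith
        calc κ + 1 = (κ + 1) * 1 := by ring
          _ ≤ (κ + 1) * (κ + 1) ^ 2 := mul_le_mul_of_nonneg_left this (by linarith)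
          _ = (κ + 1) ^ 3 := by ring
    _ = ((κ + 1) * X) ^ 3 := by ring

end Pool.Agent.Helper38_Strip
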