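import Pool.Agent.Helper38_Strip.Statements

/-!
# Module LAP: Laplace asymptotics on the circle
-/

namespace Pool.Agent.Helper38_Strip
namespace H43

open MeasureTheory Filter Topology Set

theorem gauss_moment (j : ℕ) :
    ∫ φ : ℝ, φ ^ (2 * j) * Real.exp (-φ ^ 2 / 2) =
      2 ^ ((j : ℝ) + 1 / 2) * Real.Gamma ((j : ℝ) + 1 / 2) := by
  have h1 : ∫ φ : ℝ, φ ^ (2 * j) * Real.exp (-φ ^ 2 / 2) =
      ∫ φ : ℝ, (fun y : ℝ => y ^ (2 * j) * Real.exp (-y ^ 2 / 2)) |φ| := by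
    refine integral_congr_ae (Eventually.of_forall fun φ => ?_)
    show φ ^ (2 * j) * Real.exp (-φ ^ 2 / 2) = |φ| ^ (2 * j) * Real.exp (-|φ| ^ 2 / 2)
    rw [pow_mul |φ|, sq_abs, ← pow_mul]
  rw [h1, integral_comp_abs (f := fun y : ℝ => y ^ (2 * j) * Real.exp (-y ^ 2 / 2))]
  have h2 : ∫ x in Ioi (0 : ℝ), x ^ (2 * j) * Real.exp (-x ^ 2 / 2) =
      ∫ x in Ioi (0 : ℝ), x ^ ((2 * j : ℕ) : ℝ) * Real.exp (-(1 / 2) * x ^ (2 : ℝ)) := by
    refine setIntegral_congr_fun measurableSet_Ioi (fun x hx => ?_)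
    show x ^ (2 * j) * Real.exp (-x ^ 2 / 2) = x ^ ((2 * j : ℕ) : ℝ) * Real.exp (-(1 / 2) * x ^ (2 : ℝ))
    rw [Real.rpow_natCast, Real.rpow_two]
    congr 2
    ring
  show 2 * ∫ x in Ioi (0 : ℝ), x ^ (2 * j) * Real.exp (-x ^ 2 / 2) = _
  rw [h2, integral_rpow_mul_exp_neg_mul_rpow (by norm_num) (by
    have : (0 : ℝ) ≤ ((2 * j : ℕ) : ℝ) := Nat.cast_nonneg _
    linarith) (by norm_num)]
  have h3 : (((2 * j : ℕ) : ℝ) + 1) / 2 = (j : ℝ) + 1 / 2 := by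
    push_cast
    ring
  have h4 : -(((2 * j : ℕ) : ℝ) + 1) / 2 = -((j : ℝ) + 1 / 2) := by
    push_cast
    ring
  rw [h3, h4]
  have h5 : ((1 : ℝ) / 2) ^ (-((j : ℝ) + 1 / 2)) = 2 ^ ((j : ℝ) + 1 / 2) := by
    rw [one_div, Real.inv_rpow (by norm_num), Real.rpow_neg (by norm_num), inv_inv]
  rw [h5]
  ring

/-- bound of `f` on the circle -/
theorem ratio_bound (j : ℕ) (f : ℝ → ℝ) (a : ℝ) (hf : Continuous f)
    (hlim : Tendsto (fun θ => f θ / θ ^ (2 * j)) (𝓝[≠] 0) (𝓝 a)) :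
    ∃ K : ℝ, 0 ≤ K ∧ ∀ θ : ℝ, |θ| ≤ Real.pi → θ ≠ 0 → |f θ| ≤ K * θ ^ (2 * j) := by
  have h1 : ∀ᶠ θ in 𝓝[≠] (0 : ℝ), |f θ / θ ^ (2 * j)| ≤ |a| + 1 := by
    have h2 := hlim.abs
    exact (h2.eventually (eventually_le_nhds (by linarith : |a| < |a| + 1)))
  rw [eventually_nhdsWithin_iff, Metric.eventually_nhds_iff] at h1
  obtain ⟨δ, hδ, h1⟩ := h1
  obtain ⟨M, hM⟩ := (isCompact_Icc (a := -Real.pi) (b := Real.pi)).exists_bound_of_continuousOn
    hf.continuousOn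
  have hM0 : 0 ≤ M := (norm_nonneg _).trans (hM 0 ⟨by linarith [Real.pi_pos], Real.pi_pos.le⟩)
  refine ⟨max (|a| + 1) (M / δ ^ (2 * j)), le_trans (by positivity) (le_max_left _ _), ?_⟩
  intro θ hθ hθ0
  have hev : (0 : ℝ) < θ ^ (2 * j) := by
    rw [pow_mul]
    positivity
  by_cases hd : |θ| < δ
  · have h3 := h1 (y := θ) (by simpa using hd) hθ0
    rw [abs_div, abs_of_pos hev, div_le_iff₀ hev] at h3
    exact h3.trans (mul_le_mul_of_nonneg_right (le_max_left _ _) hev.le)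
  · push Not at hd
    have h3 : |f θ| ≤ M := by
      have := hM θ (abs_le.mp hθ)
      simpa using this
    have h4 : δ ^ (2 * j) ≤ θ ^ (2 * j) := by
      have h5 : θ ^ (2 * j) = |θ| ^ (2 * j) := by
        rw [pow_mul |θ|, sq_abs, ← pow_mul]
      rw [h5]
      exact pow_le_pow_left₀ hδ.le hd _
    have hδj : 0 < δ ^ (2 * j) := by positivity
    calc |f θ| ≤ M := h3
      _ = M / δ ^ (2 * j) * δ ^ (2 * j) := by field_simp
      _ ≤ M / δ ^ (2 * j) * θ ^ (2 * j) := mul_le_mul_of_nonneg_left h4 (by positivity)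
      _ ≤ _ := mul_le_mul_of_nonneg_right (le_max_right _ _) hev.le

/-- the rescaled integrand -/
noncomputable def hX (j : ℕ) (f : ℝ → ℝ) (X θ : ℝ) : ℝ :=
  f θ * X ^ j * Real.exp (X * (Real.cos θ - 1))

theorem rescale (j : ℕ) (f : ℝ → ℝ) (X : ℝ) (hX0 : 0 < X) :
    X ^ ((j : ℝ) + 1 / 2) * Real.exp (-X) * bb X f =
      (1 / (2 * Real.pi)) *
        ∫ φ : ℝ, (Ioc (-(Real.pi * √X)) (Real.pi * √X)).indicator
          (fun φ => hX j f X (φ / √X)) φ := by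
  have hs : 0 < √X := Real.sqrt_pos.mpr hX0
  have h1 : X ^ ((j : ℝ) + 1 / 2) = √X * X ^ j := by
    rw [Real.rpow_add hX0, Real.rpow_natCast, ← Real.sqrt_eq_rpow]
    ring
  have h2 : ∫ φ : ℝ, (Ioc (-(Real.pi * √X)) (Real.pi * √X)).indicator
      (fun φ => hX j f X (φ / √X)) φ = √X * ∫ θ in (-Real.pi)..Real.pi, hX j f X θ := by
    rw [integral_indicator measurableSet_Ioc,
      ← intervalIntegral.integral_of_le (by nlinarith [Real.pi_pos]),
      intervalIntegral.integral_comp_div _ hs.ne', smul_eq_mul]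
    congr 2
    · field_simp
    · field_simp
  rw [h2, bb, h1]
  have h3 : ∫ θ in (-Real.pi)..Real.pi, hX j f X θ =
      X ^ j * Real.exp (-X) * ∫ θ in (-Real.pi)..Real.pi, f θ * Real.exp (X * Real.cos θ) := by
    rw [← intervalIntegral.integral_const_mul]
    refine intervalIntegral.integral_congr fun θ _ => ?_
    show f θ * X ^ j * Real.exp (X * (Real.cos θ - 1)) =
      X ^ j * Real.exp (-X) * (f θ * Real.exp (X * Real.cos θ))
    have h4 : X * (Real.cos θ - 1) = -X + X * Real.cos θ := by ring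
    rw [h4, Real.exp_add]
    ring
  rw [h3]
  ring

theorem bound_hX (j : ℕ) (f : ℝ → ℝ) (K : ℝ) (hK0 : 0 ≤ K)
    (hK : ∀ θ : ℝ, |θ| ≤ Real.pi → θ ≠ 0 → |f θ| ≤ K * θ ^ (2 * j)) (X φ : ℝ) (hX0 : 0 < X)
    (hφ : φ ≠ 0) :
    ‖(Ioc (-(Real.pi * √X)) (Real.pi * √X)).indicator (fun φ => hX j f X (φ / √X)) φ‖ ≤
      K * (φ ^ (2 * j) * Real.exp (-(2 / Real.pi ^ 2) * φ ^ 2)) := by
  have hs : 0 < √X := Real.sqrt_pos.mpr hX0
  have hev : (0 : ℝ) ≤ φ ^ (2 * j) := by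
    rw [pow_mul]
    positivity
  by_cases hm : φ ∈ Ioc (-(Real.pi * √X)) (Real.pi * √X)
  · rw [indicator_of_mem hm]
    have habs : |φ / √X| ≤ Real.pi := by
      rw [abs_div, abs_of_pos hs, div_le_iff₀ hs, abs_le]
      exact ⟨hm.1.le, hm.2⟩
    have h1 := hK (φ / √X) habs (div_ne_zero hφ hs.ne')
    have h2 := Real.cos_le_one_sub_mul_cos_sq habs
    have hsq : (φ / √X) ^ 2 = φ ^ 2 / X := by
      rw [div_pow, Real.sq_sqrt hX0.le]
    have h3 : (φ / √X) ^ (2 * j) = φ ^ (2 * j) / X ^ j := by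
      rw [pow_mul, hsq, div_pow, ← pow_mul]
    rw [hX, Real.norm_eq_abs, abs_mul, abs_mul, Real.abs_exp, abs_of_pos (pow_pos hX0 j)]
    have h4 : X * (Real.cos (φ / √X) - 1) ≤ -(2 / Real.pi ^ 2) * φ ^ 2 := by
      have h5 : Real.cos (φ / √X) - 1 ≤ -(2 / Real.pi ^ 2) * (φ / √X) ^ 2 := by linarith
      calc X * (Real.cos (φ / √X) - 1) ≤ X * (-(2 / Real.pi ^ 2) * (φ / √X) ^ 2) :=
            mul_le_mul_of_nonneg_left h5 hX0.le
        _ = -(2 / Real.pi ^ 2) * φ ^ 2 := by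
            rw [hsq]
            field_simp
    calc |f (φ / √X)| * X ^ j * Real.exp (X * (Real.cos (φ / √X) - 1))
        ≤ K * (φ ^ (2 * j) / X ^ j) * X ^ j * Real.exp (-(2 / Real.pi ^ 2) * φ ^ 2) := by
          refine mul_le_mul ?_ (Real.exp_le_exp.mpr h4) (Real.exp_nonneg _) ?_
          · refine mul_le_mul_of_nonneg_right ?_ (by positivity)
            rw [← h3]
            exact h1
          · positivity
      _ = _ := by
          have : X ^ j ≠ 0 := (pow_pos hX0 j).ne'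
          field_simp
  · rw [indicator_of_notMem hm, norm_zero]
    positivity

theorem integrable_bound (j : ℕ) (K : ℝ) :
    Integrable fun φ : ℝ => K * (φ ^ (2 * j) * Real.exp (-(2 / Real.pi ^ 2) * φ ^ 2)) := by
  have h := integrable_rpow_mul_exp_neg_mul_sq (b := 2 / Real.pi ^ 2) (by positivity)
    (s := ((2 * j : ℕ) : ℝ)) (by
      have : (0 : ℝ) ≤ ((2 * j : ℕ) : ℝ) := Nat.cast_nonneg _
      linarith)
  simp only [Real.rpow_natCast] at h
  exact h.const_mul K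

theorem cos_lim : Tendsto (fun θ : ℝ => (Real.cos θ - 1) / θ ^ 2) (𝓝[≠] 0) (𝓝 (-(1 / 2))) := by
  have hb1 : ∀ θ : ℝ, θ ≠ 0 → -(1 / 2) ≤ (Real.cos θ - 1) / θ ^ 2 := by
    intro θ hθ
    rw [le_div_iff₀ (by positivity)]
    have := Real.one_sub_sq_div_two_le_cos (x := θ)
    linarith
  have hb2 : ∀ᶠ θ : ℝ in 𝓝[≠] 0, (Real.cos θ - 1) / θ ^ 2 ≤ -(1 / 2) + θ ^ 2 * (5 / 96) := by
    have hsmall : ∀ᶠ θ : ℝ in 𝓝[≠] 0, |θ| ≤ 1 := by
      refine eventually_nhdsWithin_of_eventually_nhds ?_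
      have : ∀ᶠ θ : ℝ in 𝓝 0, |θ| < 1 := by
        have h0 : Tendsto (fun θ : ℝ => |θ|) (𝓝 0) (𝓝 0) := by
          simpa using (continuous_abs.tendsto (0 : ℝ))
        exact h0.eventually (eventually_lt_nhds one_pos)
      exact this.mono fun θ h => h.le
    filter_upwards [hsmall, self_mem_nhdsWithin] with θ h1 h2
    have hθ : θ ≠ 0 := h2
    have h3 := Real.cos_bound h1
    rw [abs_le] at h3
    rw [div_le_iff₀ (by positivity)]
    have h4 : |θ| ^ 4 = θ ^ 4 := by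
      rw [show (4 : ℕ) = 2 * 2 from rfl, pow_mul, sq_abs, ← pow_mul]
    rw [h4] at h3
    nlinarith [h3.2]
  refine tendsto_of_tendsto_of_tendsto_of_le_of_le' tendsto_const_nhds ?_ ?_ hb2
  · have : Tendsto (fun θ : ℝ => -(1 / 2) + θ ^ 2 * (5 / 96)) (𝓝 0) (𝓝 (-(1 / 2) + 0 ^ 2 * (5 / 96))) := by
      refine Continuous.tendsto ?_ 0
      fun_prop
    have h2 : (-(1 / 2) + (0 : ℝ) ^ 2 * (5 / 96)) = -(1 / 2) := by norm_num
    rw [h2] at this
    exact this.mono_left nhdsWithin_le_nhds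
  · filter_upwards [self_mem_nhdsWithin] with θ hθ
    exact hb1 θ hθ

theorem pointwise_lim (j : ℕ) (f : ℝ → ℝ) (a : ℝ)
    (hlim : Tendsto (fun θ => f θ / θ ^ (2 * j)) (𝓝[≠] 0) (𝓝 a)) (φ : ℝ) (hφ : φ ≠ 0) :
    Tendsto (fun X : ℝ => (Ioc (-(Real.pi * √X)) (Real.pi * √X)).indicator
      (fun φ => hX j f X (φ / √X)) φ) atTop (𝓝 (a * (φ ^ (2 * j) * Real.exp (-φ ^ 2 / 2)))) := by
  have hsq : Tendsto (fun X : ℝ => √X) atTop atTop := by
    have := tendsto_rpow_atTop (y := 1 / 2) (by norm_num)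
    refine this.congr fun X => ?_
    rw [Real.sqrt_eq_rpow]
  have hdiv : Tendsto (fun X : ℝ => φ / √X) atTop (𝓝 0) := hsq.const_div_atTop φ
  have hdiv' : Tendsto (fun X : ℝ => φ / √X) atTop (𝓝[≠] 0) := by
    rw [tendsto_nhdsWithin_iff]
    refine ⟨hdiv, ?_⟩
    filter_upwards [eventually_gt_atTop (0 : ℝ)] with X hX0
    exact div_ne_zero hφ (Real.sqrt_pos.mpr hX0).ne'
  have hA : Tendsto (fun X : ℝ => f (φ / √X) / (φ / √X) ^ (2 * j)) atTop (𝓝 a) :=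
    hlim.comp hdiv'
  have hB : Tendsto (fun X : ℝ => (Real.cos (φ / √X) - 1) / (φ / √X) ^ 2) atTop
      (𝓝 (-(1 / 2))) := cos_lim.comp hdiv'
  have hC : Tendsto (fun X : ℝ => (f (φ / √X) / (φ / √X) ^ (2 * j)) * φ ^ (2 * j) *
      Real.exp (((Real.cos (φ / √X) - 1) / (φ / √X) ^ 2) * φ ^ 2)) atTop
      (𝓝 (a * φ ^ (2 * j) * Real.exp (-(1 / 2) * φ ^ 2))) := by
    refine (hA.mul_const _).mul ?_
    exact (Real.continuous_exp.tendsto _).comp (hB.mul_const _)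
  have hfin : a * (φ ^ (2 * j) * Real.exp (-φ ^ 2 / 2)) =
      a * φ ^ (2 * j) * Real.exp (-(1 / 2) * φ ^ 2) := by
    have : -φ ^ 2 / 2 = -(1 / 2) * φ ^ 2 := by ring
    rw [this]
    ring
  rw [hfin]
  refine hC.congr' ?_
  have hbig : ∀ᶠ X : ℝ in atTop, |φ| / Real.pi < √X := hsq.eventually_gt_atTop _
  filter_upwards [eventually_gt_atTop (0 : ℝ), hbig] with X hX0 hX1
  have hs : 0 < √X := Real.sqrt_pos.mpr hX0
  have hmem : φ ∈ Ioc (-(Real.pi * √X)) (Real.pi * √X) := by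
    rw [div_lt_iff₀ Real.pi_pos] at hX1
    have h1 := abs_lt.mp hX1
    constructor
    · nlinarith [h1.1]
    · nlinarith [h1.2]
  rw [indicator_of_mem hmem, hX]
  have hsq2 : (φ / √X) ^ 2 = φ ^ 2 / X := by
    rw [div_pow, Real.sq_sqrt hX0.le]
  have h3 : (φ / √X) ^ (2 * j) = φ ^ (2 * j) / X ^ j := by
    rw [pow_mul, hsq2, div_pow, ← pow_mul]
  rw [h3, hsq2]
  have hφj : φ ^ (2 * j) ≠ 0 := pow_ne_zero _ hφ
  have hXj : X ^ j ≠ 0 := (pow_pos hX0 j).ne'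
  have h4 : (Real.cos (φ / √X) - 1) / (φ ^ 2 / X) * φ ^ 2 = X * (Real.cos (φ / √X) - 1) := by
    field_simp
  rw [h4]
  congr 1
  field_simp

end H43

open MeasureTheory Filter Topology Set

theorem lap : LapStatement := by
  intro j f a hf hlim
  obtain ⟨K, hK0, hK⟩ := H43.ratio_bound j f a hf hlim
  have h1 : Tendsto (fun X : ℝ => ∫ φ : ℝ, (Ioc (-(Real.pi * √X)) (Real.pi * √X)).indicator
      (fun φ => H43.hX j f X (φ / √X)) φ) atTop
      (𝓝 (∫ φ : ℝ, a * (φ ^ (2 * j) * Real.exp (-φ ^ 2 / 2)))) := by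
    refine tendsto_integral_filter_of_dominated_convergence
      (fun φ : ℝ => K * (φ ^ (2 * j) * Real.exp (-(2 / Real.pi ^ 2) * φ ^ 2))) ?_ ?_
      (H43.integrable_bound j K) ?_
    · filter_upwards with X
      refine (Continuous.aestronglyMeasurable ?_).indicator measurableSet_Ioc
      unfold H43.hX
      fun_prop
    · filter_upwards [eventually_gt_atTop (0 : ℝ)] with X hX0
      have hae : ∀ᵐ φ : ℝ, φ ≠ 0 := by
        rw [ae_iff]
        simp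
      filter_upwards [hae] with φ hφ
      exact H43.bound_hX j f K hK0 hK X φ hX0 hφ
    · have hae : ∀ᵐ φ : ℝ, φ ≠ 0 := by
        rw [ae_iff]
        simp
      filter_upwards [hae] with φ hφ
      exact H43.pointwise_lim j f a hlim φ hφ
  have h2 : (1 / (2 * Real.pi)) * ∫ φ : ℝ, a * (φ ^ (2 * j) * Real.exp (-φ ^ 2 / 2)) =
      a * (2 ^ ((j : ℝ) - 1 / 2) * Real.Gamma ((j : ℝ) + 1 / 2) / Real.pi) := by
    rw [integral_const_mul, H43.gauss_moment]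
    have h3 : (2 : ℝ) ^ ((j : ℝ) + 1 / 2) = 2 * 2 ^ ((j : ℝ) - 1 / 2) := by
      have h4 : ((j : ℝ) + 1 / 2) = 1 + ((j : ℝ) - 1 / 2) := by ring
      rw [h4, Real.rpow_add (by norm_num), Real.rpow_one]
    rw [h3]
    have := Real.pi_ne_zero
    field_simp
  rw [← h2]
  refine (h1.const_mul _).congr' ?_
  filter_upwards [eventually_gt_atTop (0 : ℝ)] with X hX0
  exact (H43.rescale j f X hX0).symm

end Pool.Agent.Helper38_Strip
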